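import Pool.Agent.V11257.Mf14

/-!
# A strongly filterbase infinite set that is dyadically filterbase finite

The model is a symmetric model with a copy `A` of the set `ω × ω` and names for all its subsets,
with the group of all permutations `h` such that for every column `D` the set `h D` is equal to `D`
up to finitely many elements.
-/

namespace Pool.Agent.Results.MP_ec7d96_lc.StronglyNotDyadically

open FirstOrder FirstOrder.Language
open Pool.Agent.Helper672.Plain (LSet)
open Pool.Agent.H635Amen (ZF)
open Pool.Agent.V11257G
open Pool.Agent.V11257Z (exists_of_forall)

universe u

/-- There is a model of ZF (and for every model of ZF there is one in the same universe) with a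
set that is strongly filterbase infinite but not dyadically filterbase infinite. -/
theorem result : (∃ (N : Type 1) (_ : LSet.Structure N),
      ZF N ∧ ∃ x : N, StronglyFilterbaseInfinite x ∧ ¬ DyadicallyFilterbaseInfinite x) ∧
    ∀ (M : Type u) [LSet.Structure M], ZF M → ∃ (N : Type u) (_ : LSet.Structure N),
      ZF N ∧ ∃ x : N, StronglyFilterbaseInfinite x ∧ ¬ DyadicallyFilterbaseInfinite x :=
  ⟨exists_of_forall fun M _ hM => exists_sd M hM, fun M _ hM => exists_sd M hM⟩

end Pool.Agent.Results.MP_ec7d96_lc.StronglyNotDyadically
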